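import Pool.Agent.W_4481e3_h10.TabR
import Pool.Agent.W_4481e3_tab.T2

/-! Kill certificate for `L = 2`, format RT: the table of the tests is sound. -/

namespace Pool.Agent.W_4481e3_tab.T2

/-- the bases of the tests -/
def bases : List (ℕ × ℕ) := [(2, 15),
  (2, 16),
  (7, 48),
  (13, 96),
  (9, 64),
  (23, 192),
  (25, 192),
  (17, 128),
  (19, 128),
  (47, 384),
  (49, 384),
  (53, 384),
  (55, 384),
  (31, 256),
  (33, 256),
  (35, 256),
  (37, 256),
  (91, 768),
  (95, 768),
  (97, 768),
  (101, 768),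
  (103, 768),
  (107, 768),
  (109, 768),
  (113, 768),
  (61, 512),
  (63, 512),
  (65, 512),
  (67, 512),
  (69, 512),
  (71, 512),
  (73, 512),
  (75, 512),
  (181, 1536),
  (185, 1536),
  (187, 1536),
  (191, 1536),
  (193, 1536),
  (197, 1536),
  (199, 1536),
  (203, 1536),
  (205, 1536),
  (209, 1536),
  (211, 1536),
  (215, 1536),
  (217, 1536),
  (221, 1536),
  (223, 1536),
  (227, 1536),
  (121, 1024),
  (123, 1024),
  (125, 1024),
  (127, 1024),
  (129, 1024),
  (131, 1024),
  (133, 1024),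
  (135, 1024),
  (137, 1024),
  (139, 1024),
  (141, 1024),
  (143, 1024),
  (145, 1024),
  (147, 1024),
  (149, 1024),
  (151, 1024),
  (409, 3072),
  (273, 2048),
  (547, 4096),
  (1637, 12288),
  (1639, 12288),
  (1093, 8192),
  (3277, 24576),
  (2185, 16384),
  (6553, 49152),
  (4369, 32768),
  (8739, 65536)]

theorem tabOK : Pool.Agent.W_4481e3_q25.EvR.TabOK tab :=
  Pool.Agent.W_4481e3_h10.tabOK_of (l := bases) (by decide +kernel)

end Pool.Agent.W_4481e3_tab.T2
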