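import Pool.Agent.W_4481e3_h10.TabR
import Pool.Agent.W_4481e3_tab.T3

/-! Kill certificate for `L = 2`, format RT: the table of the tests is sound. -/

namespace Pool.Agent.W_4481e3_tab.T3

/-- the bases of the tests -/
def bases : List (ℕ × ℕ) := [(2, 15),
  (2, 16),
  (7, 48),
  (13, 96),
  (9, 64),
  (23, 192),
  (25, 192),
  (17, 128),
  (19, 128),
  (47, 384),
  (49, 384),
  (53, 384),
  (55, 384),
  (31, 256),
  (33, 256),
  (35, 256),
  (37, 256),
  (91, 768),
  (95, 768),
  (97, 768),
  (101, 768),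
  (103, 768),
  (107, 768),
  (109, 768),
  (113, 768),
  (61, 512),
  (63, 512),
  (65, 512),
  (67, 512),
  (69, 512),
  (71, 512),
  (73, 512),
  (75, 512),
  (181, 1536),
  (185, 1536),
  (187, 1536),
  (191, 1536),
  (193, 1536),
  (197, 1536),
  (199, 1536),
  (203, 1536),
  (205, 1536),
  (209, 1536),
  (211, 1536),
  (215, 1536),
  (217, 1536),
  (221, 1536),
  (223, 1536),
  (227, 1536),
  (121, 1024),
  (123, 1024),
  (125, 1024),
  (127, 1024),
  (129, 1024),
  (131, 1024),
  (133, 1024),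
  (135, 1024),
  (137, 1024),
  (139, 1024),
  (141, 1024),
  (143, 1024),
  (145, 1024),
  (147, 1024),
  (149, 1024),
  (151, 1024),
  (365, 3072),
  (367, 3072),
  (371, 3072),
  (373, 3072),
  (377, 3072),
  (379, 3072),
  (383, 3072),
  (385, 3072),
  (389, 3072),
  (391, 3072),
  (395, 3072),
  (397, 3072),
  (401, 3072),
  (403, 3072),
  (407, 3072),
  (409, 3072),
  (413, 3072),
  (415, 3072),
  (419, 3072),
  (421, 3072),
  (425, 3072),
  (427, 3072),
  (431, 3072),
  (433, 3072),
  (437, 3072),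
  (439, 3072),
  (443, 3072),
  (445, 3072),
  (449, 3072),
  (451, 3072),
  (455, 3072),
  (457, 3072),
  (243, 2048),
  (245, 2048),
  (247, 2048),
  (249, 2048),
  (251, 2048),
  (253, 2048),
  (255, 2048),
  (257, 2048),
  (259, 2048),
  (261, 2048),
  (263, 2048),
  (265, 2048),
  (267, 2048),
  (269, 2048),
  (271, 2048),
  (273, 2048),
  (275, 2048),
  (277, 2048),
  (279, 2048),
  (281, 2048),
  (283, 2048),
  (285, 2048),
  (287, 2048),
  (289, 2048),
  (291, 2048),
  (293, 2048),
  (295, 2048),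
  (297, 2048),
  (299, 2048),
  (301, 2048),
  (303, 2048),
  (305, 2048),
  (547, 4096),
  (1637, 12288),
  (1639, 12288),
  (1093, 8192),
  (3277, 24576),
  (2185, 16384),
  (6553, 49152),
  (4369, 32768),
  (8739, 65536)]

theorem tabOK : Pool.Agent.W_4481e3_q25.EvR.TabOK tab :=
  Pool.Agent.W_4481e3_h10.tabOK_of (l := bases) (by decide +kernel)

end Pool.Agent.W_4481e3_tab.T3
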