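import Pool.Agent.W_4481e3_h10.TabR
import Pool.Agent.W_4481e3_tab.T4

/-! Kill certificate for `L = 2`, format RT: the table of the tests is sound. -/

namespace Pool.Agent.W_4481e3_tab.T4

/-- the bases of the tests -/
def bases : List (ℕ × ℕ) := [(2, 15),
  (13, 96),
  (9, 64),
  (25, 192),
  (17, 128),
  (49, 384),
  (53, 384),
  (33, 256),
  (35, 256),
  (97, 768),
  (101, 768),
  (103, 768),
  (107, 768),
  (65, 512),
  (67, 512),
  (69, 512),
  (71, 512),
  (193, 1536),
  (197, 1536),
  (199, 1536),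
  (203, 1536),
  (205, 1536),
  (209, 1536),
  (211, 1536),
  (215, 1536),
  (129, 1024),
  (131, 1024),
  (133, 1024),
  (135, 1024),
  (137, 1024),
  (139, 1024),
  (141, 1024),
  (143, 1024),
  (389, 3072),
  (391, 3072),
  (395, 3072),
  (397, 3072),
  (401, 3072),
  (403, 3072),
  (407, 3072),
  (409, 3072),
  (413, 3072),
  (415, 3072),
  (419, 3072),
  (421, 3072),
  (425, 3072),
  (427, 3072),
  (431, 3072),
  (433, 3072),
  (259, 2048),
  (261, 2048),
  (263, 2048),
  (265, 2048),
  (267, 2048),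
  (269, 2048),
  (271, 2048),
  (273, 2048),
  (275, 2048),
  (277, 2048),
  (279, 2048),
  (281, 2048),
  (283, 2048),
  (285, 2048),
  (287, 2048),
  (289, 2048),
  (773, 6144),
  (775, 6144),
  (779, 6144),
  (781, 6144),
  (785, 6144),
  (787, 6144),
  (791, 6144),
  (793, 6144),
  (797, 6144),
  (799, 6144),
  (803, 6144),
  (805, 6144),
  (809, 6144),
  (811, 6144),
  (815, 6144),
  (817, 6144),
  (821, 6144),
  (823, 6144),
  (827, 6144),
  (829, 6144),
  (833, 6144),
  (835, 6144),
  (839, 6144),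
  (841, 6144),
  (845, 6144),
  (847, 6144),
  (851, 6144),
  (853, 6144),
  (857, 6144),
  (859, 6144),
  (863, 6144),
  (865, 6144),
  (515, 4096),
  (517, 4096),
  (519, 4096),
  (521, 4096),
  (523, 4096),
  (525, 4096),
  (527, 4096),
  (529, 4096),
  (531, 4096),
  (533, 4096),
  (535, 4096),
  (537, 4096),
  (539, 4096),
  (541, 4096),
  (543, 4096),
  (545, 4096),
  (547, 4096),
  (549, 4096),
  (551, 4096),
  (553, 4096),
  (555, 4096),
  (557, 4096),
  (559, 4096),
  (561, 4096),
  (563, 4096),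
  (565, 4096),
  (567, 4096),
  (569, 4096),
  (571, 4096),
  (573, 4096),
  (575, 4096),
  (577, 4096),
  (1637, 12288),
  (1639, 12288),
  (1093, 8192),
  (3277, 24576),
  (2185, 16384),
  (6553, 49152),
  (4369, 32768),
  (8739, 65536)]

theorem tabOK : Pool.Agent.W_4481e3_q25.EvR.TabOK tab :=
  Pool.Agent.W_4481e3_h10.tabOK_of (l := bases) (by decide +kernel)

end Pool.Agent.W_4481e3_tab.T4
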